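import Pool.Agent.Q236.UL.Twin
import Pool.Agent.Q236.JC.Sys

set_option autoImplicit false

/-!
# Residue classes of consecutive almost prime pairs

For pairs `n, n + 2` without prime factors `≤ X ^ (1 / r)` (almost prime twins) the residues modulo 4 of consecutive
pairs are asymptotically independent and equidistributed, in all intervals `(Z, Z + Y]` with `Y ≥ X ^ θ`. More generally
let `F = (f_1, …, f_k)` be a system of polynomials, `q ≥ 1`, and call `m` good if no `f_j (m)` has a prime factor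
`≤ X ^ (1 / r)`. Then the residues modulo `q` of consecutive good numbers are asymptotically independent and
equidistributed in the admissible classes, and independent of the gaps, which follow exponential laws; this holds
uniformly in all systems with coefficients `≤ X ^ E` (`f_i ≠ ± f_j (x + t)` for `1 ≤ t ≤ X ^ η`).

Method: the good numbers in the class `a` modulo `q` correspond to a sieve problem for the polynomials `f_j (q x + a)`;
the joint Poisson law of `Pool.Agent.Q236.UL` for these `q` sieve problems, in cells of length `κ / V`, gives the probability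
of each configuration of the first points; by comparison of the total mass this yields the law of the gaps and
classes of the next `J` good numbers.
-/

namespace Pool.Agent.Results.MP_74f661_nt.ConsecutiveClasses

open Finset Filter Polynomial

/-- The number `ω_F(p)` of the residues `n` modulo `p` for which `p` divides the product of the `f_j (n)`. -/
def ω {k : ℕ} (F : Fin k → ℤ[X]) (p : ℕ) : ℕ :=
  ((Finset.range p).filter (fun n : ℕ => (p : ℤ) ∣ ∏ i, (F i).eval (n : ℤ))).card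

/-- The product of `1 - ω_F(p) / p` over the primes `p ≤ y`. -/
noncomputable def W {k : ℕ} (y : ℝ) (F : Fin k → ℤ[X]) : ℝ :=
  ∏ p ∈ (Finset.Icc 1 ⌊y⌋₊).filter Nat.Prime, (1 - (ω F p : ℝ) / p)

/-- A system of irreducible nonconstant polynomials of degrees at most `D`, with coefficients at most `H`,
without fixed prime divisor, and such that no `f_i` is `± f_j` shifted by `1 ≤ t ≤ U`. -/
structure System {k : ℕ} (D : ℕ) (H U : ℝ) (F : Fin k → ℤ[X]) : Prop where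
  irr : ∀ i, Irreducible (F i)
  deg : ∀ i, (F i).natDegree ≠ 0
  degD : ∀ i, (F i).natDegree ≤ D
  height : ∀ i n, |(((F i).coeff n : ℤ) : ℝ)| ≤ H
  adm : ∀ p : ℕ, p.Prime → ω F p < p
  shift : ∀ i j, ∀ t : ℕ, 1 ≤ t → (t : ℝ) ≤ U →
    F i ≠ (F j).comp (X + C (t : ℤ)) ∧ F i ≠ -(F j).comp (X + C (t : ℤ))

/-- No prime `p ≤ X ^ (1 / r)` divides any of the `f_j (m)`. -/
def Good {k : ℕ} (X : ℕ) (F : Fin k → ℤ[X]) (r m : ℕ) : Prop :=
  ∀ p : ℕ, p.Prime → (p : ℝ) ≤ (X : ℝ) ^ (1 / (r : ℝ)) → ∀ i, ¬ (p : ℤ) ∣ (F i).eval (m : ℤ)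

/-- The class of `a` modulo `q` is admissible: no prime dividing `q` divides any of the `f_j (a)`. -/
def Adm {k : ℕ} (F : Fin k → ℤ[X]) (q a : ℕ) : Prop :=
  ∀ p : ℕ, p.Prime → p ∣ q → ∀ i, ¬ (p : ℤ) ∣ (F i).eval (a : ℤ)

open Classical in
/-- The number of the admissible classes modulo `q`. -/
noncomputable def classes {k : ℕ} (F : Fin k → ℤ[X]) (q : ℕ) : ℕ :=
  ((Finset.range q).filter (fun a => Adm F q a)).card

/-- `m'` is the next element of `S` after `m`. -/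
def Next (S : ℕ → Prop) (m m' : ℕ) : Prop := m < m' ∧ S m' ∧ ∀ c, m < c → c < m' → ¬ S c

/-- The next `J` elements `m_1 < … < m_J` of `S` after `m = m_0` exist, and `m_j ≡ a_j` modulo `q` and
`m_j - m_{j-1} > T_j` for all `j`. -/
def Run (S : ℕ → Prop) (q : ℕ) {J : ℕ} (a T : Fin J → ℕ) (m : ℕ) : Prop :=
  ∃ g : ℕ → ℕ, g 0 = m ∧ ∀ j : Fin J, Next S (g j) (g (j + 1)) ∧ g (j + 1) ≡ a j [MOD q] ∧ g j + T j < g (j + 1)

open Classical in
/-- The number of the elements `m ≡ a₀` modulo `q` of `S` in `(Z, Z + Y]` with `Run S q a T m`. -/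
noncomputable def number (S : ℕ → Prop) (q a₀ : ℕ) {J : ℕ} (a T : Fin J → ℕ) (Z Y : ℕ) : ℕ :=
  ((Finset.Ioc Z (Z + Y)).filter (fun m => S m ∧ m ≡ a₀ [MOD q] ∧ Run S q a T m)).card

/-- No prime `p ≤ X ^ (1 / r)` divides `n` or `n + 2`. -/
def Twin (X r n : ℕ) : Prop :=
  ∀ p : ℕ, p.Prime → (p : ℝ) ≤ (X : ℝ) ^ (1 / (r : ℝ)) → ¬ p ∣ n ∧ ¬ p ∣ n + 2

open Classical in
/-- The number of the almost prime twins `n ≡ a` modulo 4 in `(Z, Z + Y]`. -/
noncomputable def twins (X r Z Y a : ℕ) : ℕ :=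
  ((Finset.Ioc Z (Z + Y)).filter (fun n => Twin X r n ∧ n ≡ a [MOD 4])).card

open Pool.Agent.W123.RU Pool.Agent.H373R2.T7 Pool.Agent.TH464.PO Pool.Agent.W123.RP Pool.Agent.Q236.GW
open Pool.Agent.Y879.GL Pool.Agent.Q236.EV Pool.Agent.Q236.UL
open Pool.Agent.W123.RU.Poly (Q)

lemma Q_iff {k : ℕ} (F : Fin k → ℤ[X]) (p m : ℕ) (hp : p.Prime) :
    Q F p m ↔ (p : ℤ) ∣ ∏ i, (F i).eval (m : ℤ) := by
  have hpi : Prime (p : ℤ) := Nat.prime_iff_prime_int.1 hp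
  unfold Q
  rw [hpi.dvd_finsetProd_iff]
  exact ⟨fun ⟨i, hi⟩ => ⟨i, Finset.mem_univ i, hi⟩, fun ⟨i, _, hi⟩ => ⟨i, hi⟩⟩

lemma nu_eq {k : ℕ} (F : Fin k → ℤ[X]) (p : ℕ) (hp : p.Prime) : nuB (Q F) p = ω F p := by
  unfold nuB ω
  exact card_iff _ _ (fun m _ => Q_iff F p m hp)

lemma W_eq {k : ℕ} (y : ℝ) (F : Fin k → ℤ[X]) : Vq (Q F) ⌊y⌋₊ = W y F := by
  unfold Vq W
  have h1 : pz ⌊y⌋₊ = (Finset.Icc 1 ⌊y⌋₊).filter Nat.Prime := by
    ext p
    rw [mem_pz, Finset.mem_filter, Finset.mem_Icc]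
    exact ⟨fun h => ⟨⟨h.2.one_lt.le, h.1⟩, h.2⟩, fun h => ⟨h.1.2, h.2⟩⟩
  rw [h1]
  apply Finset.prod_congr rfl
  intro p hp
  rw [nu_eq F p (Finset.mem_filter.1 hp).2]

lemma W_eq' {k : ℕ} (y : ℕ) (F : Fin k → ℤ[X]) : Vq (Q F) y = W y F := by
  rw [← W_eq, Nat.floor_natCast]

lemma good_iff {k : ℕ} (X : ℕ) (F : Fin k → ℤ[X]) (r m : ℕ) :
    Sf (Q F) ⌊(X : ℝ) ^ (1 / (r : ℝ))⌋₊ m ↔ Good X F r m := by
  have h0 : (0 : ℝ) ≤ (X : ℝ) ^ (1 / (r : ℝ)) := by positivity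
  constructor
  · intro h q hq hqn i hd
    exact h q (mem_pz.2 ⟨Nat.le_floor hqn, hq⟩) ⟨i, hd⟩
  · rintro h q hq ⟨i, hi⟩
    exact h q (mem_pz.1 hq).2 (mem_pz' h0 hq) i hi

lemma toUS {k D : ℕ} {H U : ℝ} {F : Fin k → ℤ[X]} (h : System D H U F) : US k D H U F where
  irr := h.irr
  deg := h.deg
  degD := h.degD
  hgt := h.height
  adm p hp := by
    obtain ⟨m, _, hm⟩ := nu_exists (Q F) p (by rw [nu_eq F p hp]; exact h.adm p hp)
    exact ⟨m, fun i hi => hm ⟨i, hi⟩⟩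
  tr i j t ht htU hass := by
    rcases assoc_cases hass with h1 | h1
    · exact (h.shift i j t ht htU).1 h1
    · exact (h.shift i j t ht htU).2 h1

lemma few (X r K m : ℕ) (hr : 1 ≤ r) (hX : 2 ^ r ≤ X) (hm : 0 < m) (hmX : m ≤ X ^ K)
    (h : ∀ p : ℕ, p.Prime → p ∣ m → (X : ℝ) ^ (1 / (r : ℝ)) < (p : ℝ)) :
    m.primeFactorsList.length ≤ K * r := by
  have hr0 : (r : ℝ) ≠ 0 := by exact_mod_cast (by omega : r ≠ 0)
  have hX1 : (1 : ℝ) ≤ X := by
    have : 1 ≤ 2 ^ r := Nat.one_le_two_pow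
    exact_mod_cast this.trans hX
  have hz1 : 1 ≤ (X : ℝ) ^ (1 / (r : ℝ)) := Real.one_le_rpow hX1 (by positivity)
  apply length_le m (K * r) (by omega) _ h _ hz1
  have e : ((X : ℝ) ^ (1 / (r : ℝ))) ^ r = X := by
    rw [← Real.rpow_natCast, ← Real.rpow_mul (by linarith), one_div, inv_mul_cancel₀ hr0, Real.rpow_one]
  have hmX' : (m : ℝ) ≤ (X : ℝ) ^ K := by exact_mod_cast hmX
  rw [pow_succ, mul_comm K r, pow_mul, e]
  have h0 : (0 : ℝ) ≤ (X : ℝ) ^ K := by positivity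
  nlinarith

lemma adm_iff {k : ℕ} (F : Fin k → ℤ[X]) (q a : ℕ) : AC F q a ↔ Adm F q a := by
  unfold AC Adm Q
  simp only [not_exists]

lemma gq_classes {k : ℕ} (F : Fin k → ℤ[X]) (q : ℕ) : gq F q = classes F q := by
  classical
  unfold gq classes
  congr 1
  apply Finset.filter_congr
  intro a _
  exact adm_iff F q a

lemma tg_eq (X r : ℕ) : TG ⌊(X : ℝ) ^ (1 / (r : ℝ))⌋₊ = Twin X r := by
  have h0 : (0 : ℝ) ≤ (X : ℝ) ^ (1 / (r : ℝ)) := by positivity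
  funext n
  apply propext
  constructor
  · intro h p hp hpX
    exact h p hp (Nat.le_floor hpX)
  · intro h p hp hpX
    exact h p hp ((Nat.le_floor_iff h0).1 hpX)

lemma twins_eq (X r Z Y a : ℕ) : twins X r Z Y a =
    number (Twin X r) 4 a (fun _ : Fin 0 => 0) (fun _ => 0) Z Y := by
  classical
  unfold twins number
  congr 1
  apply Finset.filter_congr
  intro n _
  constructor
  · rintro ⟨h1, h2⟩
    exact ⟨h1, h2, fun _ => n, rfl, fun j => j.elim0⟩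
  · rintro ⟨h1, h2, _⟩
    exact ⟨h1, h2⟩

/-- **Residue classes and gaps of consecutive almost prime points; residues modulo 4 of consecutive almost prime
twins.** -/
theorem result (k D q J : ℕ) (hq : 1 ≤ q) (Λ ε E η θ : ℝ) (hΛ : 0 ≤ Λ) (hε : 0 < ε) (hE : 0 < E) (hη : 0 < η)
    (hθ : 0 < θ) :
    (1 ≤ k → ∀ F : Fin k → ℤ[X], (∀ i, Irreducible (F i)) → (∀ i, 0 < (F i).natDegree) →
      (∀ i, 0 < (F i).leadingCoeff) → Function.Injective F → (∀ p : ℕ, p.Prime → ω F p < p) →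
      ∃ c C : ℝ, 0 < c ∧ 0 < C ∧ ∀ y : ℕ, 3 ≤ y → c / Real.log y ^ k ≤ W y F ∧ W y F ≤ C / Real.log y ^ k) ∧
    (∀ (X r K : ℕ) (F : Fin k → ℤ[X]) (m : ℕ), 1 ≤ r → 2 ^ r ≤ X → Good X F r m →
      ∀ i, 0 < ((F i).eval (m : ℤ)).natAbs → ((F i).eval (m : ℤ)).natAbs ≤ X ^ K →
        ((F i).eval (m : ℤ)).natAbs.primeFactorsList.length ≤ K * r) ∧
    (∃ r₀ : ℕ, 2 ≤ r₀ ∧ ∀ r : ℕ, r₀ ≤ r → ∀ C : ℝ, 0 < C → ∀ᶠ X : ℕ in atTop,
      ∀ F : Fin k → ℤ[X], System D ((X : ℝ) ^ E) ((X : ℝ) ^ η) F → W X F ≤ C / Real.log X →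
        ∀ (a₀ : ℕ) (a T : Fin J → ℕ), a₀ < q → Adm F q a₀ → (∀ j, Adm F q (a j)) →
          (∀ j, T j * W ((X : ℝ) ^ (1 / (r : ℝ))) F ≤ Λ) → ∀ Z Y : ℕ, (X : ℝ) ^ θ ≤ Y →
          |(number (Good X F r) q a₀ a T Z Y : ℝ) - Y * W ((X : ℝ) ^ (1 / (r : ℝ))) F *
              (Real.exp (-∑ j, T j * W ((X : ℝ) ^ (1 / (r : ℝ))) F) / (classes F q : ℝ) ^ (J + 1))| ≤
            ε * (Y * W ((X : ℝ) ^ (1 / (r : ℝ))) F)) ∧
    (∃ r₀ : ℕ, 2 ≤ r₀ ∧ ∀ r : ℕ, r₀ ≤ r → ∃ c : ℝ, 0 < c ∧ ∀ᶠ X : ℕ in atTop, ∀ Z Y : ℕ, (X : ℝ) ^ θ ≤ Y →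
      ∀ a₀ : ℕ, (a₀ = 1 ∨ a₀ = 3) → c * Y / Real.log X ^ 2 ≤ twins X r Z Y a₀ ∧
        ∀ a : Fin J → ℕ, (∀ j, a j = 1 ∨ a j = 3) →
          |(number (Twin X r) 4 a₀ a (fun _ => 0) Z Y : ℝ) - twins X r Z Y a₀ / 2 ^ J| ≤
            ε * twins X r Z Y a₀) := by
  have hgood : ∀ (k : ℕ) (X : ℕ) (F : Fin k → ℤ[X]) (r : ℕ),
      Sf (Q F) ⌊(X : ℝ) ^ (1 / (r : ℝ))⌋₊ = Good X F r := by
    intro k X F r
    funext m
    exact propext (good_iff X F r m)
  refine ⟨?_, ?_, ?_, ?_⟩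
  · intro hk F hirr hdeg hlead hinj hadm
    have hsys : Pool.Agent.W123.RU.Poly.Sys F := ⟨hirr, hdeg, hlead, hinj, fun p hp => by
      obtain ⟨m, _, hm⟩ := nu_exists (Q F) p (by rw [nu_eq F p hp]; exact hadm p hp)
      exact ⟨m, fun i hi => hm ⟨i, hi⟩⟩⟩
    have : Nonempty (Fin k) := ⟨⟨0, by omega⟩⟩
    obtain ⟨v, Cv, hv, hCv, hV⟩ := Pool.Agent.W123.RU.Poly.V_bounds F hsys
    refine ⟨v, Cv, hv, hCv, fun X hX => ?_⟩
    have h1 := hV X hX
    rw [Fintype.card_fin, W_eq'] at h1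
    exact h1
  · intro X r K F m hr hX hG i h1 h2
    apply few X r K _ hr hX h1 h2
    intro p hp hd
    by_contra hcon
    rw [not_lt] at hcon
    exact hG p hp hcon i (Int.natCast_dvd.2 hd)
  · obtain ⟨r₀, hr₀, h⟩ := cls_abs k D q J hq Λ ε hΛ hε E η θ hE hη hθ
    refine ⟨r₀, hr₀, ?_⟩
    intro r hr C hC
    filter_upwards [h r hr C hC] with X hX
    intro F hF hV a₀ a T ha₀ hA₀ hA hT Z Y hY
    have h1 := hX F (toUS hF) (by rw [W_eq']; exact hV) a₀ ha₀ ((adm_iff F q a₀).2 hA₀) a T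
      (fun j => (adm_iff F q (a j)).2 (hA j)) (fun j => by rw [W_eq]; exact hT j) Z Y hY
    rw [W_eq, gq_classes, hgood] at h1
    exact h1
  · obtain ⟨e1, he1⟩ : ∃ e1 : ℝ, e1 = min (1 / 4) (ε / 8) := ⟨_, rfl⟩
    have he10 : 0 < e1 := by rw [he1]; positivity
    have he14 : e1 ≤ 1 / 4 := by rw [he1]; exact min_le_left _ _
    have he1ε : e1 ≤ ε / 8 := by rw [he1]; exact min_le_right _ _
    obtain ⟨r1, hr1, h1⟩ := twin_law J θ e1 hθ he10
    obtain ⟨r2, hr2, h2⟩ := twin_law 0 θ e1 hθ he10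
    obtain ⟨v, Cv, hv, hCv, hV⟩ := Pool.Agent.W123.RU.Poly.V_bounds tw tw_sys
    refine ⟨max r1 r2, hr1.trans (le_max_left _ _), ?_⟩
    intro r hr
    have hrr : 2 ≤ r := hr1.trans ((le_max_left _ _).trans hr)
    have hpow : Tendsto (fun X : ℕ => (X : ℝ) ^ (1 / (2 * r : ℝ))) atTop atTop :=
      (tendsto_rpow_atTop (by positivity)).comp tendsto_natCast_atTop_atTop
    refine ⟨v / 24, by positivity, ?_⟩
    filter_upwards [h1 r ((le_max_left _ _).trans hr), h2 r ((le_max_right _ _).trans hr),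
      hpow.eventually_ge_atTop 4, eventually_ge_atTop 16] with X hX1 hX2 hpw hX16
    intro Z Y hXY a₀ ha₀
    have hXr : (16 : ℝ) ≤ X := by exact_mod_cast hX16
    have hc0 := hX2 Z Y hXY a₀ ha₀ (fun _ => 0) (fun j => j.elim0)
    obtain ⟨y, hy⟩ : ∃ y, y = ⌊(X : ℝ) ^ (1 / (r : ℝ))⌋₊ := ⟨_, rfl⟩
    obtain ⟨hy1, hy2, hy3, _⟩ := level_low r hrr X (by omega) (by linarith)
    rw [← hy] at hy1 hy2 hy3
    have hyr : (4 : ℝ) ≤ y := by linarith
    have hy3' : 3 ≤ y := by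
      have : (3 : ℝ) ≤ y := by linarith
      exact_mod_cast this
    rw [tg_eq] at hc0
    change |(number (Twin X r) 4 a₀ (fun _ : Fin 0 => 0) (fun _ => 0) Z Y : ℝ) - _| ≤ _ at hc0
    rw [← twins_eq, ← hy] at hc0
    obtain ⟨B, hB⟩ : ∃ B : ℝ, B = Y * (Vq (Q tw) y / 6) := ⟨_, rfl⟩
    rw [← hB, zero_add, pow_one] at hc0
    have hVlow := (hV y hy3').1
    rw [Fintype.card_fin] at hVlow
    have hlogy : 0 < Real.log y := Real.log_pos (by linarith)
    have hlogX : 0 < Real.log X := Real.log_pos (by linarith)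
    have hB0 : v / 6 * Y / Real.log X ^ 2 ≤ B := by
      rw [hB]
      have h3 : v / Real.log X ^ 2 ≤ Vq (Q tw) y := by
        refine le_trans ?_ hVlow
        apply div_le_div_of_nonneg_left hv.le (by positivity)
        exact pow_le_pow_left₀ hlogy.le hy3 2
      have h4 : (Y : ℝ) * (v / Real.log X ^ 2 / 6) ≤ Y * (Vq (Q tw) y / 6) := by
        apply mul_le_mul_of_nonneg_left _ (Nat.cast_nonneg _)
        linarith
      refine le_trans (le_of_eq ?_) h4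
      field_simp
    have hBnn : 0 ≤ B := by
      rw [hB]
      exact mul_nonneg (Nat.cast_nonneg _) (div_nonneg (Vq_nonneg _ _) (by norm_num))
    have hc0' := abs_le.1 hc0
    have htw : B / 4 ≤ twins X r Z Y a₀ := by nlinarith [hc0'.1]
    refine ⟨?_, ?_⟩
    · refine le_trans ?_ htw
      have h5 : v / 24 * Y / Real.log X ^ 2 = (v / 6 * Y / Real.log X ^ 2) / 4 := by ring
      rw [h5]
      linarith
    · intro a ha
      have hcJ := hX1 Z Y hXY a₀ ha₀ a ha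
      rw [tg_eq] at hcJ
      change |(number (Twin X r) 4 a₀ a (fun _ => 0) Z Y : ℝ) - _| ≤ _ at hcJ
      rw [← hy, ← hB] at hcJ
      have hcJ' := abs_le.1 hcJ
      obtain ⟨c, hc⟩ : ∃ c : ℝ, c = 1 / 2 ^ J := ⟨_, rfl⟩
      have hcn : 0 ≤ c := by rw [hc]; positivity
      have hcn1 : c ≤ 1 := by
        rw [hc, div_le_one (by positivity)]
        exact one_le_pow₀ (by norm_num)
      have e2 : B / 2 ^ (J + 1) = B / 2 * c := by
        rw [hc, pow_succ]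
        field_simp
      have e3 : (twins X r Z Y a₀ : ℝ) / 2 ^ J = twins X r Z Y a₀ * c := by rw [hc]; ring
      rw [e2] at hcJ'
      rw [e3]
      have h6 : |(twins X r Z Y a₀ : ℝ) * c - B / 2 * c| ≤ e1 * B := by
        rw [← sub_mul, abs_mul, abs_of_nonneg hcn]
        calc |(twins X r Z Y a₀ : ℝ) - B / 2| * c ≤ |(twins X r Z Y a₀ : ℝ) - B / 2| * 1 :=
              mul_le_mul_of_nonneg_left hcn1 (abs_nonneg _)
          _ ≤ _ := by rw [mul_one]; exact hc0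
      have h6' := abs_le.1 h6
      have h7 : 2 * (e1 * B) ≤ ε * twins X r Z Y a₀ := by
        calc 2 * (e1 * B) ≤ 2 * (ε / 8 * B) := by
              apply mul_le_mul_of_nonneg_left _ (by norm_num)
              exact mul_le_mul_of_nonneg_right he1ε hBnn
          _ = ε * (B / 4) := by ring
          _ ≤ _ := mul_le_mul_of_nonneg_left htw hε.le
      rw [abs_le]
      constructor
      · linarith [hcJ'.1, h6'.2]
      · linarith [hcJ'.2, h6'.1]

end Pool.Agent.Results.MP_74f661_nt.ConsecutiveClasses
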