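import Pool.Agent.Q152.TW.Str

/-!
# Strings of values of almost every real character at consecutive twin primes and prime tuples
-/

set_option autoImplicit false

namespace Pool.Agent.Results.MP_74f661_nt.QuadraticCharacters

open Finset

/-- `n ≡ a` modulo `q` and all the numbers `n + h l` are prime
(twin primes: `r = 2`, `h = (0, 2)`; primes: `r = 1`, `h = 0`) -/
def Tup {r : ℕ} (h : Fin r → ℕ) (q a n : ℕ) : Prop := n ≡ a [MOD q] ∧ ∀ l, (n + h l).Prime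

noncomputable instance {r : ℕ} (h : Fin r → ℕ) (q a : ℕ) : DecidablePred (Tup h q a) := Classical.decPred _

/-- the prime at the place `(j, l)`: the `l`-th member of the `(i + j)`-th tuple
(the tuples are numbered from `0` in increasing order) -/
noncomputable def pl {k r : ℕ} (h : Fin r → ℕ) (q a i : ℕ) (u : Fin k × Fin r) : ℕ :=
  Nat.nth (Tup h q a) (i + u.1) + h u.2

open Classical in
/-- the `i` in `[i₀, i₁)` for which the primes at the places in `U` are distinct -/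
noncomputable def Idx {k r : ℕ} (h : Fin r → ℕ) (q a i₀ i₁ : ℕ) (U : Finset (Fin k × Fin r)) : Finset ℕ :=
  (Ico i₀ i₁).filter fun i => Set.InjOn (pl (k := k) h q a i) (U : Set (Fin k × Fin r))

/-- the law of the strings of values of `( · / m)` up to `X`, for all tuples, classes, windows, sets of places
and signs -/
def Law (k r : ℕ) (C X δ : ℝ) (m : ℕ) : Prop :=
  ∀ (h : Fin r → ℕ) (q a i₀ i₁ : ℕ), (∀ l, (h l : ℝ) ≤ X) → 1 ≤ q → (q : ℝ) ≤ X → i₀ ≤ i₁ →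
    i₁ + k ≤ Nat.count (Tup h q a) (⌊X⌋₊ + 1) + 1 →
    ∀ (U : Finset (Fin k × Fin r)) (e : Fin k × Fin r → ℤ), (∀ u, e u = 1 ∨ e u = -1) →
      |(((Idx h q a i₀ i₁ U).filter fun i => ∀ u ∈ U, jacobiSym (pl h q a i u : ℤ) m = e u).card : ℝ) -
        (((Idx h q a i₀ i₁ U).filter fun i => ∀ u ∈ U, (pl h q a i u).Coprime m).card : ℝ) / 2 ^ U.card| ≤
      C * √(X ^ δ * ((i₁ : ℝ) - i₀) / δ ^ U.card)

open Pool.Agent.Q152.QH Pool.Agent.Q152.TW

lemma lt_card {p : ℕ → Prop} [DecidablePred p] {k n : ℕ} (h : k < Nat.count p n)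
    (hf : (Set.ofPred p).Finite) : k < hf.toFinset.card := by
  refine h.trans_le ?_
  rw [Nat.count_eq_card_filter_range]
  refine card_le_card fun x hx => ?_
  rw [Set.Finite.mem_toFinset]
  exact (mem_filter.1 hx).2

/-- the event at the scale `N` with the parameter `κ` -/
def Good (k r E κ N m : ℕ) : Prop :=
  ∀ (h : Fin r → ℕ) (q a i₀ i₁ : ℕ), (∀ l, h l ≤ N) → 1 ≤ q → q ≤ N → a < q → i₀ ≤ i₁ →
    i₁ + k ≤ Nat.count (Tup h q a) (N + 1) + 1 →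
    ∀ U W : Finset (Fin k × Fin r), W ⊆ U → W.Nonempty →
      (∑ i ∈ Idx h q a i₀ i₁ U, (jacobiSym (Mx (pl h q a) U W i : ℤ) m : ℝ)) ^ 2 ≤
        (N : ℝ) ^ ((E : ℝ) / κ) * (4 * ((2 * (κ : ℝ)) ^ U.card * ((k * r : ℕ) : ℝ)) * ((i₁ : ℝ) - i₀))

open Classical in
/-- one choice of the parameters -/
theorem one_par (k r κ N P : ℕ) (hκ : 1 ≤ κ) (hN : 2 ≤ N) (hP : 4 * N ^ ((8 * (k * r) + 2) * κ) ≤ P)
    (L : ℝ) (hL : 0 < L) (h : Fin r → ℕ) (q a i₀ i₁ : ℕ) (hh : ∀ l, h l ≤ N) (hi : i₀ ≤ i₁)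
    (hc : i₁ + k ≤ Nat.count (Tup h q a) (N + 1) + 1) (U W : Finset (Fin k × Fin r)) (hWU : W ⊆ U)
    (hW : W.Nonempty) :
    (((om P).filter fun m => L * (4 * ((2 * (κ : ℝ)) ^ U.card * ((k * r : ℕ) : ℝ)) * ((i₁ : ℝ) - i₀)) <
      (∑ i ∈ Idx h q a i₀ i₁ U, (jacobiSym (Mx (pl h q a) U W i : ℤ) m : ℝ)) ^ 2).card : ℝ) ≤ P / L ^ κ := by
  obtain ⟨w, hw⟩ := hW
  have hk1 : 1 ≤ k := by
    have := w.1.2
    omega
  have hcN : Nat.count (Tup h q a) (N + 1) ≤ N + 1 := Nat.count_le _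
  have hlt : ∀ i ∈ Idx h q a i₀ i₁ U, ∀ j : Fin k, i + (j : ℕ) < Nat.count (Tup h q a) (N + 1) := by
    intro i hi' j
    have h1 := mem_Ico.1 (mem_filter.1 hi').1
    have := j.2
    omega
  have hle : ∀ i ∈ Idx h q a i₀ i₁ U, ∀ u : Fin k × Fin r, pl h q a i u ≤ 2 * N := by
    intro i hi' u
    have h1 := Nat.nth_lt_of_lt_count (hlt i hi' u.1)
    have h2 := hh u.2
    unfold pl
    omega
  have hcard : (Idx h q a i₀ i₁ U).card ≤ i₁ - i₀ := by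
    refine (card_filter_le _ _).trans ?_
    rw [Nat.card_Ico]
  refine exc_str κ hκ (Idx h q a i₀ i₁ U) U W hWU ⟨w, hw⟩ (pl h q a) (fun i hi' u _ => ?_) (fun i hi' => ?_)
    (fun u _ => ?_) (2 * N) (k * r) (2 * N) (by omega) (fun i hi' u _ => hle i hi' u) ?_ ?_ ((i₁ : ℝ) - i₀) ?_
    P ?_ L hL
  · have h1 := Nat.nth_mem (i + (u.1 : ℕ)) (fun hf => lt_card (hlt i hi' u.1) hf)
    exact h1.2 u.2
  · exact (mem_filter.1 hi').2
  · intro x hx y hy hxy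
    have hx' := hlt x (mem_coe.1 hx) u.1
    have hy' := hlt y (mem_coe.1 hy) u.1
    simp only [pl] at hxy
    rcases Nat.lt_trichotomy x y with h1 | h1 | h1
    · exfalso
      have := Nat.nth_lt_nth' (p := Tup h q a) (show x + (u.1 : ℕ) < y + u.1 by omega)
        (fun hf => lt_card hy' hf)
      omega
    · exact h1
    · exfalso
      have := Nat.nth_lt_nth' (p := Tup h q a) (show y + (u.1 : ℕ) < x + u.1 by omega)
        (fun hf => lt_card hx' hf)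
      omega
  · have h1 := card_le_univ U
    rwa [Fintype.card_prod, Fintype.card_fin, Fintype.card_fin] at h1
  · omega
  · have h1 : ((Idx h q a i₀ i₁ U).card : ℝ) ≤ ((i₁ - i₀ : ℕ) : ℝ) := by exact_mod_cast hcard
    rwa [Nat.cast_sub hi] at h1
  · refine le_trans ?_ hP
    have h1 : 2 * N ≤ N ^ 2 := by nlinarith
    calc 4 * ((2 * N) ^ (2 * (k * r))) ^ (2 * κ) * (2 * N) ^ κ ≤
        4 * ((N ^ 2) ^ (2 * (k * r))) ^ (2 * κ) * (N ^ 2) ^ κ := by gcongr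
      _ = 4 * N ^ ((8 * (k * r) + 2) * κ) := by
          rw [← pow_mul, ← pow_mul, ← pow_mul, mul_assoc, ← pow_add]
          congr 2
          ring

open Classical in
/-- one scale -/
theorem one_scale (k r B : ℕ) : ∃ E N₀ : ℕ, ∀ (P N κ : ℕ), N₀ ≤ N → 1 ≤ κ →
    4 * N ^ ((8 * (k * r) + 2) * κ) ≤ P →
    (((om P).filter fun m => ¬ Good k r E κ N m).card : ℝ) ≤ P / (N : ℝ) ^ B := by
  refine ⟨B + r + 5, max 2 (2 ^ (r + 4) * (2 ^ (k * r) * 2 ^ (k * r))), fun P N κ hN hκ hP => ?_⟩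
  have hN2 : 2 ≤ N := (le_max_left _ _).trans hN
  have hNC : 2 ^ (r + 4) * (2 ^ (k * r) * 2 ^ (k * r)) ≤ N := (le_max_right _ _).trans hN
  have hN0 : (0 : ℝ) < N := by
    have : 0 < N := by omega
    exact_mod_cast this
  have hκR : (1 : ℝ) ≤ κ := by exact_mod_cast hκ
  have hP0 : (0 : ℝ) ≤ P := Nat.cast_nonneg _
  set E : ℕ := B + r + 5 with hE
  set L : ℝ := (N : ℝ) ^ ((E : ℝ) / κ) with hL
  have hL0 : 0 < L := Real.rpow_pos_of_pos hN0 _
  have hLk : L ^ κ = (N : ℝ) ^ E := by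
    rw [hL, ← Real.rpow_natCast, ← Real.rpow_mul hN0.le, div_mul_cancel₀ _ (by positivity), Real.rpow_natCast]
  set T : Finset ((Fin r → ℕ) × (ℕ × ℕ × ℕ × ℕ) × Finset (Fin k × Fin r) × Finset (Fin k × Fin r)) :=
    (Fintype.piFinset fun _ => range (N + 1)) ×ˢ
      (range (N + 1) ×ˢ range (N + 1) ×ˢ range (N + 2) ×ˢ range (N + 2)) ×ˢ univ ×ˢ univ with hT
  set bad : (Fin r → ℕ) × (ℕ × ℕ × ℕ × ℕ) × Finset (Fin k × Fin r) × Finset (Fin k × Fin r) → Finset ℕ :=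
    fun t => (om P).filter fun m => ((∀ l, t.1 l ≤ N) ∧ t.2.1.2.2.1 ≤ t.2.1.2.2.2 ∧
      t.2.1.2.2.2 + k ≤ Nat.count (Tup t.1 t.2.1.1 t.2.1.2.1) (N + 1) + 1 ∧ t.2.2.2 ⊆ t.2.2.1 ∧ t.2.2.2.Nonempty) ∧
      L * (4 * ((2 * (κ : ℝ)) ^ t.2.2.1.card * ((k * r : ℕ) : ℝ)) * ((t.2.1.2.2.2 : ℝ) - t.2.1.2.2.1)) <
      (∑ i ∈ Idx t.1 t.2.1.1 t.2.1.2.1 t.2.1.2.2.1 t.2.1.2.2.2 t.2.2.1,
        (jacobiSym (Mx (pl t.1 t.2.1.1 t.2.1.2.1) t.2.2.1 t.2.2.2 i : ℤ) m : ℝ)) ^ 2 with hbad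
  have hsub : ((om P).filter fun m => ¬ Good k r E κ N m) ⊆ T.biUnion bad := by
    intro m hm
    rw [mem_filter] at hm
    unfold Good at hm
    push Not at hm
    obtain ⟨hm1, h, q, a, i₀, i₁, hh, hq1, hqN, haq, hi, hc, U, W, hWU, hW, hlt⟩ := hm
    rw [mem_biUnion]
    refine ⟨(h, (q, a, i₀, i₁), U, W), ?_, ?_⟩
    · obtain ⟨w, hw⟩ := hW
      have hk1 : 1 ≤ k := by
        have := w.1.2
        omega
      have hcN : Nat.count (Tup h q a) (N + 1) ≤ N + 1 := Nat.count_le _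
      rw [hT, mem_product, mem_product, mem_product, Fintype.mem_piFinset]
      simp only [mem_product, mem_range, mem_univ, and_true]
      refine ⟨fun l => ?_, ?_⟩
      · have := hh l
        omega
      · omega
    · rw [hbad]
      exact mem_filter.2 ⟨hm1, ⟨hh, hi, hc, hWU, hW⟩, hlt⟩
  have hb : ∀ t ∈ T, ((bad t).card : ℝ) ≤ P / (N : ℝ) ^ E := by
    rintro ⟨h, ⟨q, a, i₀, i₁⟩, U, W⟩ _
    by_cases hv : (∀ l, h l ≤ N) ∧ i₀ ≤ i₁ ∧ i₁ + k ≤ Nat.count (Tup h q a) (N + 1) + 1 ∧ W ⊆ U ∧ W.Nonempty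
    · have h1 := one_par k r κ N P hκ hN2 hP L hL0 h q a i₀ i₁ hv.1 hv.2.1 hv.2.2.1 U W hv.2.2.2.1 hv.2.2.2.2
      rw [hLk] at h1
      refine le_trans (Nat.cast_le.2 (card_le_card fun m hm => ?_)) h1
      rw [hbad] at hm
      rw [mem_filter] at hm ⊢
      exact ⟨hm.1, hm.2.2⟩
    · have : bad (h, (q, a, i₀, i₁), U, W) = ∅ := by
        rw [hbad]
        simp only
        rw [filter_eq_empty_iff]
        intro m _ h1
        exact hv h1.1
      rw [this, card_empty, Nat.cast_zero]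
      positivity
  have hTc : (T.card : ℝ) ≤ (N : ℝ) ^ (r + 5) := by
    have h1 : T.card ≤ N ^ (r + 5) := by
      rw [hT, card_product, card_product, card_product, card_product, card_product, card_product,
        Fintype.card_piFinset, prod_const, card_range, card_range, card_univ, Fintype.card_fin, card_univ,
        Fintype.card_finset, Fintype.card_prod, Fintype.card_fin, Fintype.card_fin]
      have e1 : N + 1 ≤ 2 * N := by omega
      have e2 : N + 2 ≤ 2 * N := by omega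
      calc (N + 1) ^ r * (((N + 1) * ((N + 1) * ((N + 2) * (N + 2)))) * (2 ^ (k * r) * 2 ^ (k * r))) ≤
          (2 * N) ^ r * (((2 * N) * ((2 * N) * ((2 * N) * (2 * N)))) * (2 ^ (k * r) * 2 ^ (k * r))) := by gcongr
        _ = 2 ^ (r + 4) * (2 ^ (k * r) * 2 ^ (k * r)) * N ^ (r + 4) := by ring
        _ ≤ N * N ^ (r + 4) := Nat.mul_le_mul_right _ hNC
        _ = N ^ (r + 5) := by ring
    exact_mod_cast h1
  calc (((om P).filter fun m => ¬ Good k r E κ N m).card : ℝ) ≤ ((T.biUnion bad).card : ℝ) :=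
        Nat.cast_le.2 (card_le_card hsub)
    _ ≤ ∑ t ∈ T, ((bad t).card : ℝ) := by exact_mod_cast card_biUnion_le
    _ ≤ ∑ t ∈ T, P / (N : ℝ) ^ E := sum_le_sum hb
    _ = T.card * (P / (N : ℝ) ^ E) := by rw [sum_const, nsmul_eq_mul]
    _ ≤ (N : ℝ) ^ (r + 5) * (P / (N : ℝ) ^ E) := mul_le_mul_of_nonneg_right hTc (by positivity)
    _ = P / (N : ℝ) ^ B := by
        rw [hE, show B + r + 5 = B + (r + 5) by ring, pow_add (N : ℝ) B]
        field_simp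

/-- from the event to the law -/
theorem good_law (k r E : ℕ) (E' : ℝ) (hE1 : 1 ≤ E') (hE : (E : ℝ) ≤ E') (X δ : ℝ) (hX1 : 1 ≤ X) (hδ0 : 0 < δ)
    (hδ1 : δ ≤ 1) (m : ℕ) (hm : m ≠ 0) (hg : Good k r E ⌈E' / δ⌉₊ ⌊X⌋₊ m) :
    Law k r (√(4 * ((4 * E') ^ (k * r) * ((k * r : ℕ) : ℝ)))) X δ m := by
  intro h q a i₀ i₁ hh hq1 hqX hi hc U e he
  set κ := ⌈E' / δ⌉₊ with hκ
  have hX0 : 0 < X := by linarith
  have hE'0 : 0 < E' := by linarith
  have hquot : 1 ≤ E' / δ := by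
    rw [le_div_iff₀ hδ0]
    linarith
  have hκ1 : E' / δ ≤ κ := Nat.le_ceil _
  have hκ2 : (κ : ℝ) ≤ 2 * E' / δ := by
    have h1 := (Nat.ceil_lt_add_one (show 0 ≤ E' / δ by positivity)).le
    rw [← hκ] at h1
    rw [mul_div_assoc]
    linarith
  have hκ0 : (0 : ℝ) < κ := by linarith
  have hN0 : (0 : ℝ) < (⌊X⌋₊ : ℕ) := by
    have : 0 < ⌊X⌋₊ := Nat.floor_pos.2 hX1
    exact_mod_cast this
  have hNX : ((⌊X⌋₊ : ℕ) : ℝ) ≤ X := Nat.floor_le hX0.le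
  have hD : (0 : ℝ) ≤ (i₁ : ℝ) - i₀ := by
    have : (i₀ : ℝ) ≤ i₁ := by exact_mod_cast hi
    linarith
  have hT : Tup h q a = Tup h q (a % q) := by
    funext n
    unfold Tup Nat.ModEq
    rw [Nat.mod_mod]
  have hpl : (pl h q a : ℕ → Fin k × Fin r → ℕ) = pl h q (a % q) := by
    funext i u
    unfold pl
    rw [hT]
  have hIdx : Idx h q a i₀ i₁ U = Idx h q (a % q) i₀ i₁ U := by
    unfold Idx
    rw [hpl]
  have hcount : Nat.count (Tup h q a) (⌊X⌋₊ + 1) = Nat.count (Tup h q (a % q)) (⌊X⌋₊ + 1) := by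
    rw [Nat.count_eq_card_filter_range, Nat.count_eq_card_filter_range]
    refine congrArg card (filter_congr fun n _ => ?_)
    rw [hT]
  have dec : ∀ (p : ℕ → Prop) (d1 d2 : DecidablePred p) (S : Finset ℕ),
      (@Finset.filter ℕ p d1 S).card = (@Finset.filter ℕ p d2 S).card := by
    intro p d1 d2 S
    rw [Subsingleton.elim d1 d2]
  rw [dec (fun i => ∀ u ∈ U, jacobiSym (pl h q a i u : ℤ) m = e u) _
    (fun i => Finset.decidableDforallFinset),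
    dec (fun i => ∀ u ∈ U, (pl h q a i u).Coprime m) _ (fun i => Finset.decidableDforallFinset)]
  refine pattern (Idx h q a i₀ i₁ U) U (pl h q a) e he m hm
    (√(4 * ((4 * E') ^ (k * r) * ((k * r : ℕ) : ℝ))) * √(X ^ δ * ((i₁ : ℝ) - i₀) / δ ^ U.card))
    (fun W hWU hW => ?_) (by positivity)
  have h1 := hg h q (a % q) i₀ i₁ (fun l => Nat.le_floor (hh l)) hq1 (Nat.le_floor hqX)
    (Nat.mod_lt _ (by omega)) hi (by rw [← hcount]; exact hc) U W hWU hW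
  rw [← hIdx, ← hpl] at h1
  have hUc : U.card ≤ k * r := by
    have h2 := card_le_univ U
    rwa [Fintype.card_prod, Fintype.card_fin, Fintype.card_fin] at h2
  have hkr0 : (0 : ℝ) ≤ ((k * r : ℕ) : ℝ) := Nat.cast_nonneg _
  have h2 : ((⌊X⌋₊ : ℕ) : ℝ) ^ ((E : ℝ) / κ) ≤ X ^ δ := by
    refine (Real.rpow_le_rpow hN0.le hNX (by positivity)).trans (Real.rpow_le_rpow_of_exponent_le hX1 ?_)
    rw [div_le_iff₀ hκ0]
    rw [div_le_iff₀ hδ0] at hκ1
    linarith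
  have h3 : (2 * (κ : ℝ)) ^ U.card ≤ (4 * E') ^ (k * r) / δ ^ U.card := by
    have e1 : 2 * (κ : ℝ) ≤ 4 * E' / δ := by
      have : 4 * E' / δ = 2 * (2 * E' / δ) := by ring
      rw [this]
      linarith
    calc (2 * (κ : ℝ)) ^ U.card ≤ (4 * E' / δ) ^ U.card := pow_le_pow_left₀ (by positivity) e1 _
      _ = (4 * E') ^ U.card / δ ^ U.card := div_pow _ _ _
      _ ≤ (4 * E') ^ (k * r) / δ ^ U.card := by
          refine div_le_div_of_nonneg_right ?_ (by positivity)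
          exact pow_le_pow_right₀ (by linarith) hUc
  have h4 : (∑ i ∈ Idx h q a i₀ i₁ U, (jacobiSym (Mx (pl h q a) U W i : ℤ) m : ℝ)) ^ 2 ≤
      (4 * ((4 * E') ^ (k * r) * ((k * r : ℕ) : ℝ))) * (X ^ δ * ((i₁ : ℝ) - i₀) / δ ^ U.card) := by
    refine h1.trans ?_
    calc ((⌊X⌋₊ : ℕ) : ℝ) ^ ((E : ℝ) / κ) * (4 * ((2 * (κ : ℝ)) ^ U.card * ((k * r : ℕ) : ℝ)) * ((i₁ : ℝ) - i₀)) ≤
        X ^ δ * (4 * ((4 * E') ^ (k * r) / δ ^ U.card * ((k * r : ℕ) : ℝ)) * ((i₁ : ℝ) - i₀)) := by gcongr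
      _ = _ := by ring
  rw [← Real.sqrt_mul (by positivity)]
  rw [← Real.sqrt_sq_eq_abs]
  exact Real.sqrt_le_sqrt h4

open Classical in
/-- **Theorem.** -/
theorem result (k r B : ℕ) : ∃ A C Y₀ : ℝ, ∀ (P : ℕ) (Y : ℝ), Y₀ ≤ Y →
    ((((range (P + 1)).filter fun m => Odd m ∧ ¬ ∀ X δ : ℝ, Y ≤ X → 1 / Real.log X ≤ δ → δ ≤ 1 →
      X ^ (A / δ) ≤ P → Law k r C X δ m).card : ℕ) : ℝ) ≤ P / Y ^ B := by
  obtain ⟨E, N₀, H⟩ := one_scale k r (B + 1 + 3)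
  set c : ℕ := 8 * (k * r) + 2 with hc
  set E' : ℝ := max E 1 with hE'
  have hE1 : 1 ≤ E' := le_max_right _ _
  have hEE : (E : ℝ) ≤ E' := le_max_left _ _
  obtain ⟨X₁, hX₁⟩ : ∃ X₁ : ℝ, ∀ X : ℝ, X₁ ≤ X → 2 * E' * Real.log X ≤ X - 1 := by
    have h1 := Real.isLittleO_log_id_atTop
    have h2 := h1.bound (show 0 < 1 / (4 * E') by positivity)
    obtain ⟨X₁, hX₁⟩ := Filter.eventually_atTop.1 h2
    refine ⟨max X₁ 2, fun X hX => ?_⟩
    have h3 := hX₁ X ((le_max_left _ _).trans hX)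
    have hX2 : 2 ≤ X := (le_max_right _ _).trans hX
    rw [Real.norm_of_nonneg (Real.log_nonneg (by linarith)), id, Real.norm_of_nonneg (by linarith),
      div_mul_eq_mul_div, one_mul, le_div_iff₀ (by positivity)] at h3
    linarith
  refine ⟨2 * c * E' + 1, √(4 * ((4 * E') ^ (k * r) * ((k * r : ℕ) : ℝ))),
    max (max ((N₀ : ℝ) + 1) (2 ^ (B + 1))) (max X₁ 16), fun P Y hY => ?_⟩
  have a1 : (N₀ : ℝ) + 1 ≤ Y := (le_max_left _ _).trans ((le_max_left _ _).trans hY)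
  have a2 : (2 : ℝ) ^ (B + 1) ≤ Y := (le_max_right _ _).trans ((le_max_left _ _).trans hY)
  have a3 : X₁ ≤ Y := (le_max_left _ _).trans ((le_max_right _ _).trans hY)
  have a4 : 16 ≤ Y := (le_max_right _ _).trans ((le_max_right _ _).trans hY)
  have a5 : N₀ ≤ ⌊Y⌋₊ := Nat.le_floor (by linarith)
  have a6 : 2 ≤ ⌊Y⌋₊ := Nat.le_floor (by push_cast; linarith)
  refine real_height B P Y a2 _ (le_trans (Nat.cast_le.2 (card_le_card fun m hm => ?_))
    (scales_gen c (by omega) (fun (_ : Unit) κ N m => Good k r E κ N m) (B + 1) N₀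
      (fun _ P N κ h1 h2 h3 => H P N κ h1 h2 h3) () P ⌊Y⌋₊ a6 a5))
  rw [mem_filter] at hm
  rw [mem_filter, om, mem_filter]
  refine ⟨⟨hm.1, hm.2.1⟩, fun hgood => hm.2.2 fun X δ hX hδ hδ1 hXP => ?_⟩
  have hX16 : 16 ≤ X := a4.trans hX
  have hX1 : 1 ≤ X := by linarith
  have hX0 : 0 < X := by linarith
  have hlog : 0 < Real.log X := Real.log_pos (by linarith)
  have hδ0 : 0 < δ := lt_of_lt_of_le (by positivity) hδ
  have hm0 : m ≠ 0 := by
    rintro rfl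
    exact absurd hm.2.1 (by decide)
  have hNX : ((⌊X⌋₊ : ℕ) : ℝ) ≤ X := Nat.floor_le hX0.le
  have hquot : 1 ≤ E' / δ := by
    rw [le_div_iff₀ hδ0]
    linarith
  have hκ2 : ((⌈E' / δ⌉₊ : ℕ) : ℝ) ≤ 2 * E' / δ := by
    have h1 := (Nat.ceil_lt_add_one (show 0 ≤ E' / δ by positivity)).le
    rw [mul_div_assoc]
    linarith
  have hκ1 : 1 ≤ ⌈E' / δ⌉₊ := Nat.one_le_ceil_iff.2 (by linarith)
  have hκN : ⌈E' / δ⌉₊ ≤ ⌊X⌋₊ := by
    have h1 : 1 / δ ≤ Real.log X := by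
      rw [div_le_iff₀ hlog] at hδ
      rw [div_le_iff₀ hδ0]
      linarith
    have h2 : 2 * E' / δ ≤ 2 * E' * Real.log X := by
      rw [div_eq_mul_one_div]
      exact mul_le_mul_of_nonneg_left h1 (by positivity)
    have h3 := hX₁ X (a3.trans hX)
    exact Nat.le_floor (by linarith)
  refine good_law k r E E' hE1 hEE X δ hX1 hδ0 hδ1 m hm0
    (hgood ⌊X⌋₊ ⌈E' / δ⌉₊ (Nat.floor_mono hX) hκ1 hκN ?_)
  have h1 : (4 : ℝ) * ((⌊X⌋₊ : ℕ) : ℝ) ^ (c * ⌈E' / δ⌉₊) ≤ P := by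
    refine le_trans ?_ hXP
    calc (4 : ℝ) * ((⌊X⌋₊ : ℕ) : ℝ) ^ (c * ⌈E' / δ⌉₊) ≤ X * X ^ (c * ⌈E' / δ⌉₊) := by
          refine mul_le_mul (by linarith) (pow_le_pow_left₀ (Nat.cast_nonneg _) hNX _) (by positivity) hX0.le
      _ = X ^ (((c * ⌈E' / δ⌉₊ + 1 : ℕ) : ℝ)) := by rw [Real.rpow_natCast]; ring
      _ ≤ X ^ ((2 * c * E' + 1) / δ) := by
          refine Real.rpow_le_rpow_of_exponent_le hX1 ?_
          push_cast
          rw [add_div]
          have h2 : (c : ℝ) * ((⌈E' / δ⌉₊ : ℕ) : ℝ) ≤ c * (2 * E' / δ) :=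
            mul_le_mul_of_nonneg_left hκ2 (Nat.cast_nonneg _)
          have h3 : (1 : ℝ) ≤ 1 / δ := by
            rw [le_div_iff₀ hδ0]
            linarith
          have h4 : (c : ℝ) * (2 * E' / δ) = 2 * c * E' / δ := by ring
          linarith
  exact_mod_cast h1

end Pool.Agent.Results.MP_74f661_nt.QuadraticCharacters
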