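import Pool.Agent.Q120.GM.LO5
import Pool.Agent.Q120.GM.Exists

/-!
# Residues modulo 4 of consecutive twins in the sieved models of the primes

`Q` is the level: the random set contains each `n` coprime to `Q` independently with
probability `min(1, (Q/φ(Q))/log n)`, and no other `n`.

Almost surely, for all levels `Q` divisible by `6`, the proportion of the twins `≡ a` modulo `4` which are followed
by a twin `≡ b` modulo `4` tends to `1/2`, and it is `1/2 - (Q/φ(Q))²/(4 log² x) (1 + o(1))` for `a = b` and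
`1/2 + (Q/φ(Q))²/(4 log² x) (1 + o(1))` for `a ≠ b`.
-/

set_option autoImplicit false

namespace Pool.Agent.Results.MP_74f661_nt.ResidueBias

open Finset MeasureTheory ProbabilityTheory Filter Pool.Agent.Q120.GM
open scoped Topology

/-- The first members of the twins of `S`. -/
def twins (S : Set ℕ) : Set ℕ := {n | n ∈ S ∧ n + 2 ∈ S}

/-- The proportion of the twins `n ≤ x` with `n ≡ a` modulo `4` for which the next twin is `≡ b` modulo `4`. -/
noncomputable def delta (S : Set ℕ) (a b x : ℕ) : ℝ := (pairCount (twins S) a b x : ℝ) / classCount (twins S) a x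

/-- The law of the residues modulo `4` of consecutive twins. -/
structure Law (S : Set ℕ) (Q : ℕ) : Prop where
  infinite : (twins S).Infinite
  limit : ∀ a b : ℕ, (a = 1 ∨ a = 3) → (b = 1 ∨ b = 3) → Tendsto (fun x : ℕ => delta S a b x) atTop (𝓝 (1 / 2))
  same : ∀ a : ℕ, (a = 1 ∨ a = 3) →
    Tendsto (fun x : ℕ => (delta S a a x - 1 / 2) * Real.log x ^ 2) atTop (𝓝 (-(((Q : ℝ) / Nat.totient Q) ^ 2 / 4)))
  different : ∀ a b : ℕ, (a = 1 ∧ b = 3 ∨ a = 3 ∧ b = 1) →
    Tendsto (fun x : ℕ => (delta S a b x - 1 / 2) * Real.log x ^ 2) atTop (𝓝 (((Q : ℝ) / Nat.totient Q) ^ 2 / 4))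

variable {Ω : Type*} [MeasurableSpace Ω] {μ : Measure Ω} [IsProbabilityMeasure μ] {A : Ω → Set ℕ} {Q : ℕ}

theorem mod_of {n : ℕ} (hQ : 6 ∣ Q) (h1 : n.Coprime Q) (h2 : (n + 2).Coprime Q) : n % 6 = 5 := by
  have h3 : n.Coprime 6 := Nat.Coprime.coprime_dvd_right hQ h1
  have h4 : (n + 2).Coprime 6 := Nat.Coprime.coprime_dvd_right hQ h2
  have h5 : ¬ 2 ∣ n := by
    intro h
    have := Nat.eq_one_of_dvd_coprimes h3 h (by norm_num)
    omega
  have h6 : ¬ 3 ∣ n := by
    intro h
    have := Nat.eq_one_of_dvd_coprimes h3 h (by norm_num)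
    omega
  have h7 : ¬ 3 ∣ n + 2 := by
    intro h
    have := Nat.eq_one_of_dvd_coprimes h4 h (by norm_num)
    omega
  have h8 : n % 6 < 6 := Nat.mod_lt _ (by norm_num)
  interval_cases h : n % 6 <;> omega

theorem level_zero {n : ℕ} (h : ¬ n.Coprime Q) : level Q n = 0 := by
  unfold level
  rw [if_neg h]

theorem twin_model (hA : IsModel μ (level Q) A) (hQ : 6 ∣ Q) :
    IsModel μ (fun n => level Q n * level Q (n + 2)) (fun ω => twins (A ω)) := by
  classical
  have hm : ∀ n, MeasurableSet {ω | n ∈ twins (A ω)} := fun n => (hA.meas n).inter (hA.meas (n + 2))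
  have hone : ∀ n, μ.real {ω | n ∈ twins (A ω)} = level Q n * level Q (n + 2) := by
    intro n
    have h1 : {ω | n ∈ twins (A ω)} = all A {n, n + 2} := by
      ext ω
      simp [all, twins]
    rw [h1, real_all hA, prod_pair (by omega)]
  refine ⟨hm, ?_, hone⟩
  rw [iIndepSet_iff_meas_biInter hm]
  intro s
  have hreal : μ.real (⋂ i ∈ s, {ω | i ∈ twins (A ω)}) = ∏ i ∈ s, μ.real {ω | i ∈ twins (A ω)} := by
    by_cases h : ∀ i ∈ s, i % 6 = 5
    · have h1 : (⋂ i ∈ s, {ω | i ∈ twins (A ω)}) = all A (s ∪ s.image (fun i => i + 2)) := by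
        ext ω
        rw [Set.mem_iInter₂]
        constructor
        · intro h2 i hi
          rw [mem_union, mem_image] at hi
          rcases hi with hi | ⟨j, hj, rfl⟩
          · exact (h2 i hi).1
          · exact (h2 j hj).2
        · intro h2 i hi
          exact ⟨h2 i (mem_union_left _ hi), h2 (i + 2) (mem_union_right _ (mem_image_of_mem _ hi))⟩
      rw [h1, real_all hA, prod_union, prod_image, ← prod_mul_distrib]
      · exact prod_congr rfl (fun i _ => (hone i).symm)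
      · intro a _ b _ hab
        simpa using hab
      · rw [Finset.disjoint_left]
        intro a ha ha'
        rw [mem_image] at ha'
        obtain ⟨b, hb, rfl⟩ := ha'
        have e1 := h _ ha
        have e2 := h b hb
        omega
    · push Not at h
      obtain ⟨i, hi, hi6⟩ := h
      have h1 : μ.real {ω | i ∈ twins (A ω)} = 0 := by
        rw [hone]
        by_cases h2 : i.Coprime Q
        · by_cases h3 : (i + 2).Coprime Q
          · exact absurd (mod_of hQ h2 h3) hi6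
          · rw [level_zero h3, mul_zero]
        · rw [level_zero h2, zero_mul]
      rw [prod_eq_zero hi h1]
      have h2 : μ.real (⋂ i ∈ s, {ω | i ∈ twins (A ω)}) ≤ μ.real {ω | i ∈ twins (A ω)} :=
        measureReal_mono (Set.iInter₂_subset i hi) (measure_ne_top _ _)
      rw [h1] at h2
      exact le_antisymm h2 measureReal_nonneg
  rw [← ENNReal.toReal_eq_toReal_iff' (measure_ne_top _ _) (ENNReal.prod_ne_top (fun i _ => measure_ne_top _ _)), ENNReal.toReal_prod]
  exact hreal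

/-- The sign of the class modulo `4` of the possible twins. -/
noncomputable def fs (Q n : ℕ) : ℝ := if n.Coprime Q ∧ (n + 2).Coprime Q then (if n % 4 = 1 then 1 else -1) else 0

/-- The probability of a possible twin. -/
noncomputable def qs (Q n : ℕ) : ℝ :=
  min 1 ((Q : ℝ) / Nat.totient Q / Real.log n) * min 1 ((Q : ℝ) / Nat.totient Q / Real.log ((n + 2 : ℕ) : ℝ))

theorem fs_cases (n : ℕ) : fs Q n = 0 ∨ fs Q n = 1 ∨ fs Q n = -1 := by
  unfold fs
  split_ifs
  · exact Or.inr (Or.inl rfl)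
  · exact Or.inr (Or.inr rfl)
  · exact Or.inl rfl

theorem prob_eq (n : ℕ) : level Q n * level Q (n + 2) = fs Q n ^ 2 * qs Q n := by
  unfold level fs qs
  by_cases h1 : n.Coprime Q <;> by_cases h2 : (n + 2).Coprime Q
  · rw [if_pos h1, if_pos h2, if_pos ⟨h1, h2⟩]
    split_ifs <;> ring
  · rw [if_neg h2, if_neg (show ¬ (n.Coprime Q ∧ (n + 2).Coprime Q) from fun h => h2 h.2)]
    ring
  · rw [if_neg h1, if_neg (show ¬ (n.Coprime Q ∧ (n + 2).Coprime Q) from fun h => h1 h.1)]
    ring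
  · rw [if_neg h1, if_neg (show ¬ (n.Coprime Q ∧ (n + 2).Coprime Q) from fun h => h1 h.1)]
    ring

theorem fac_nonneg (n : ℕ) : 0 ≤ min 1 ((Q : ℝ) / Nat.totient Q / Real.log n) := by
  have := Real.log_natCast_nonneg n
  exact le_min zero_le_one (by positivity)

theorem qs_nonneg (n : ℕ) : 0 ≤ qs Q n := mul_nonneg (fac_nonneg n) (fac_nonneg (n + 2))

theorem qs_le_one (n : ℕ) : qs Q n ≤ 1 := mul_le_one₀ (min_le_left _ _) (fac_nonneg (n + 2)) (min_le_left _ _)

theorem fac_anti {m n : ℕ} (hm : 2 ≤ m) (h : m ≤ n) :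
    min 1 ((Q : ℝ) / Nat.totient Q / Real.log n) ≤ min 1 ((Q : ℝ) / Nat.totient Q / Real.log m) := by
  refine min_le_min le_rfl (div_le_div_of_nonneg_left (by positivity) (Real.log_pos (by exact_mod_cast hm)) ?_)
  exact Real.log_le_log (by exact_mod_cast (by omega : 0 < m)) (by exact_mod_cast h)

theorem qs_anti (n : ℕ) (hn : 2 ≤ n) : qs Q (n + 1) ≤ qs Q n :=
  mul_le_mul (fac_anti hn (by omega)) (fac_anti (by omega) (by omega)) (fac_nonneg _) (fac_nonneg _)

theorem qs_lim (hQ : 1 ≤ Q) : Tendsto (fun n : ℕ => qs Q n * Real.log n ^ 2) atTop (𝓝 (((Q : ℝ) / Nat.totient Q) ^ 2)) := by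
  have hl := Pool.Agent.Q120.AD.hl
  obtain ⟨κ, hκ⟩ : ∃ κ : ℝ, κ = (Q : ℝ) / Nat.totient Q := ⟨_, rfl⟩
  have hshift : Tendsto (fun x : ℕ => x + 2) atTop atTop := tendsto_add_atTop_nat 2
  have h1 : Tendsto (fun x : ℕ => Real.log x / Real.log ((x + 2 : ℕ) : ℝ)) atTop (𝓝 1) := by
    have h2 : Tendsto (fun x : ℕ => 1 - 2 / Real.log ((x + 2 : ℕ) : ℝ)) atTop (𝓝 (1 - 0)) :=
      (tendsto_const_nhds.div_atTop (hl.comp hshift)).const_sub 1
    rw [sub_zero] at h2
    refine tendsto_of_tendsto_of_tendsto_of_le_of_le' h2 tendsto_const_nhds ?_ ?_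
    · filter_upwards [eventually_ge_atTop 1, (hl.comp hshift).eventually_gt_atTop 0] with x hx hx2
      have hx0 : (0 : ℝ) < x := by exact_mod_cast hx
      have hx3 : 0 < Real.log ((x + 2 : ℕ) : ℝ) := hx2
      rw [le_div_iff₀ hx3, sub_mul, one_mul, div_mul_cancel₀ _ hx3.ne']
      have h3 : Real.log ((x + 2 : ℕ) : ℝ) - Real.log x ≤ 2 := by
        rw [← Real.log_div (by positivity) hx0.ne']
        refine (Real.log_le_sub_one_of_pos (by positivity)).trans ?_
        push_cast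
        rw [add_div, div_self hx0.ne']
        have : 2 / (x : ℝ) ≤ 2 := by
          rw [div_le_iff₀ hx0]
          have : (1 : ℝ) ≤ x := by exact_mod_cast hx
          linarith
        linarith
      linarith
    · filter_upwards [eventually_ge_atTop 1, (hl.comp hshift).eventually_gt_atTop 0] with x hx hx2
      have hx0 : (0 : ℝ) < x := by exact_mod_cast hx
      have hx3 : 0 < Real.log ((x + 2 : ℕ) : ℝ) := hx2
      rw [div_le_one hx3]
      exact Real.log_le_log hx0 (by push_cast; linarith)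
  have h2 := h1.const_mul (κ ^ 2)
  rw [mul_one] at h2
  rw [← hκ]
  refine h2.congr' ?_
  filter_upwards [hl.eventually_ge_atTop (κ + 1), (hl.comp hshift).eventually_ge_atTop (κ + 1)] with n h3 h4
  have hκ0 : 0 ≤ κ := by rw [hκ]; positivity
  have h5 : 0 < Real.log (n : ℝ) := by linarith
  have h6' : κ + 1 ≤ Real.log ((n + 2 : ℕ) : ℝ) := h4
  have h6 : 0 < Real.log ((n + 2 : ℕ) : ℝ) := by linarith
  unfold qs
  rw [← hκ, min_eq_right (by rw [div_le_one h5]; linarith), min_eq_right (by rw [div_le_one h6]; linarith)]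
  field_simp

theorem one_coprime (hQ : 1 ≤ Q) : (Q - 1).Coprime Q := by
  rw [Nat.coprime_iff_gcd_eq_one]
  have h1 : Nat.gcd (Q - 1) Q ∣ Q - 1 := Nat.gcd_dvd_left _ _
  have h2 : Nat.gcd (Q - 1) Q ∣ Q := Nat.gcd_dvd_right _ _
  have h3 : Nat.gcd (Q - 1) Q ∣ Q - 1 + 1 := by rw [Nat.sub_add_cancel hQ]; exact h2
  exact Nat.dvd_one.1 ((Nat.dvd_add_right h1).1 h3)

theorem fs_ne (hQ : 1 ≤ Q) : fs Q (Q - 1) ≠ 0 := by
  unfold fs
  have h1 : (Q - 1 + 2).Coprime Q := by
    have : Q - 1 + 2 = 1 + Q := by omega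
    rw [this]
    simp
  rw [if_pos ⟨one_coprime hQ, h1⟩]
  split_ifs <;> norm_num

/-- A shift which changes the sign. -/
theorem fs_anti (hQ1 : 1 ≤ Q) (hQ : 6 ∣ Q) : ∃ R : ℕ, 0 < R ∧ ∀ n, fs Q (n + R) = -fs Q n := by
  obtain ⟨a, m, hm, hQe⟩ := Nat.exists_eq_two_pow_mul_odd (n := Q) (by omega)
  obtain ⟨j, hj⟩ := hm
  have ha : a ≠ 0 := by
    intro ha
    rw [ha, pow_zero, one_mul] at hQe
    omega
  refine ⟨2 * m, by omega, fun n => ?_⟩
  have hc : ∀ n, n.Coprime Q ↔ n % 2 = 1 ∧ n.Coprime m := by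
    intro n
    rw [hQe, Nat.coprime_mul_iff_right, Nat.coprime_pow_right_iff (by omega), Nat.coprime_comm,
      Nat.coprime_two_left, Nat.odd_iff]
  have hp : ∀ n, (n + 2 * m).Coprime Q ↔ n.Coprime Q := by
    intro n
    rw [hc, hc]
    have e1 : (n + 2 * m) % 2 = n % 2 := by omega
    have e2 : (n + 2 * m).Coprime m ↔ n.Coprime m := by simp
    rw [e1, e2]
  unfold fs
  have e3 : n + 2 * m + 2 = (n + 2) + 2 * m := by ring
  by_cases h : n.Coprime Q ∧ (n + 2).Coprime Q
  · have h' : (n + 2 * m).Coprime Q ∧ (n + 2 * m + 2).Coprime Q := ⟨(hp n).2 h.1, by rw [e3]; exact (hp _).2 h.2⟩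
    rw [if_pos h', if_pos h]
    have h1 := ((hc n).1 h.1).1
    by_cases h2 : n % 4 = 1
    · rw [if_neg (show ¬ ((n + 2 * m) % 4 = 1) by omega), if_pos h2]
    · rw [if_pos (show (n + 2 * m) % 4 = 1 by omega), if_neg h2, neg_neg]
  · have h' : ¬ ((n + 2 * m).Coprime Q ∧ (n + 2 * m + 2).Coprime Q) := by
      intro h1
      rw [e3] at h1
      exact h ⟨(hp n).1 h1.1, (hp _).1 h1.2⟩
    rw [if_neg h', if_neg h, neg_zero]

theorem law (hA : IsModel μ (level Q) A) (hQ1 : 1 ≤ Q) (hQ : 6 ∣ Q) : ∀ᵐ ω ∂μ, Law (A ω) Q := by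
  have hB := twin_model hA hQ
  obtain ⟨R, hR, hfR⟩ := fs_anti hQ1 hQ
  have hφ : (0 : ℝ) < Nat.totient Q := by exact_mod_cast Nat.totient_pos.2 (by omega)
  have hQ0 : (0 : ℝ) < Q := by exact_mod_cast hQ1
  have h1 := corr_law hB (f := fs Q) (q := qs Q) (k := 2) fs_cases hR hfR (fs_ne hQ1) prob_eq qs_nonneg qs_le_one qs_anti
    (show 0 < ((Q : ℝ) / Nat.totient Q) ^ 2 by positivity) (by norm_num) (qs_lim hQ1)
  have h2 : ∀ᵐ ω ∂μ, ∀ n ∈ twins (A ω), fs Q n ≠ 0 := by
    rw [ae_all_iff]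
    intro n
    by_cases hn : fs Q n = 0
    · have h3 : μ.real {ω | n ∈ twins (A ω)} = 0 := by
        rw [hB.prob, prob_eq, hn]
        ring
      have h4 : μ {ω | n ∈ twins (A ω)} = 0 := (measureReal_eq_zero_iff (measure_ne_top _ _)).1 h3
      have h5 : ∀ᵐ ω ∂μ, ¬ (n ∈ twins (A ω)) := by
        rw [ae_iff]
        simpa using h4
      filter_upwards [h5] with ω hω h6
      exact absurd h6 hω
    · filter_upwards with ω _
      exact hn
  filter_upwards [h1, h2] with ω g1 g2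
  obtain ⟨d1, d2, d3⟩ := g1
  have hS : ∀ n ∈ twins (A ω), (n % 4 = 1 ∧ fs Q n = 1) ∨ (n % 4 = 3 ∧ fs Q n = -1) := by
    intro n hn
    have h3 := g2 n hn
    by_cases h : n.Coprime Q ∧ (n + 2).Coprime Q
    · have h4 := mod_of hQ h.1 h.2
      unfold fs
      rw [if_pos h]
      by_cases h5 : n % 4 = 1
      · exact Or.inl ⟨h5, if_pos h5⟩
      · exact Or.inr ⟨by omega, if_neg h5⟩
    · exact absurd (by unfold fs; rw [if_neg h]) h3
  have key : ∀ a b : ℕ, (a = 1 ∨ a = 3) → (b = 1 ∨ b = 3) →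
      Tendsto (fun x : ℕ => (delta (A ω) a b x - 1 / 2) * Real.log x ^ 2) atTop
        (𝓝 (-(sg a * sg b * (((Q : ℝ) / Nat.totient Q) ^ 2 / 4)))) := by
    intro a b ha hb
    exact residues hS fs_cases (show 0 < ((Q : ℝ) / Nat.totient Q) ^ 2 by positivity) d1 d2 d3 ha hb
  refine ⟨?_, ?_, ?_, ?_⟩
  · -- infinitely many twins
    intro hfin
    obtain ⟨M, hM⟩ : ∃ M : ℝ, ∀ N, ∑ m ∈ range N, xx (twins (A ω)) m ≤ M := by
      refine ⟨hfin.toFinset.card, fun N => ?_⟩
      have h3 : ∑ m ∈ range N, xx (twins (A ω)) m ≤ ∑ m ∈ hfin.toFinset, xx (twins (A ω)) m := by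
        have h4 : ∑ m ∈ range N, xx (twins (A ω)) m = ∑ m ∈ (range N).filter (fun m => m ∈ hfin.toFinset), xx (twins (A ω)) m := by
          rw [sum_filter_of_ne]
          intro m _ hm
          rw [Set.Finite.mem_toFinset]
          by_contra hcon
          exact hm (xx_notMem hcon)
        rw [h4]
        refine sum_le_sum_of_subset_of_nonneg (fun m hm => (mem_filter.1 hm).2) (fun m _ _ => ?_)
        rcases xx_cases (twins (A ω)) m with h | h <;> rw [h]
        norm_num
      refine h3.trans ?_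
      have h5 : ∀ m ∈ hfin.toFinset, xx (twins (A ω)) m ≤ 1 := by
        intro m _
        rcases xx_cases (twins (A ω)) m with h | h <;> rw [h]
        norm_num
      refine (sum_le_sum h5).trans ?_
      rw [sum_const, nsmul_eq_mul, mul_one]
    have hpos : ∀ N, 0 ≤ ∑ m ∈ range N, xx (twins (A ω)) m := by
      intro N
      refine sum_nonneg (fun m _ => ?_)
      rcases xx_cases (twins (A ω)) m with h | h <;> rw [h]
      norm_num
    have hM0 : 0 ≤ M := (hpos 0).trans (hM 0)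
    -- the count is zero or the quotient is large
    by_cases hz : ∀ N, ∑ m ∈ range N, xx (twins (A ω)) m = 0
    · have h6 : (fun N : ℕ => (∑ m ∈ range N, xx (twins (A ω)) m * (fs Q m * UU (fs Q) (twins (A ω)) m)) * Real.log N ^ 2 /
          ∑ m ∈ range N, xx (twins (A ω)) m) = fun _ => (0 : ℝ) := by
        funext N
        rw [hz N, div_zero]
      rw [h6] at d1
      have h7 := tendsto_nhds_unique d1 tendsto_const_nhds
      have h8 : 0 < ((Q : ℝ) / Nat.totient Q) ^ 2 := by positivity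
      linarith
    · push Not at hz
      obtain ⟨N₀, hN₀⟩ := hz
      have h6 : 0 < ∑ m ∈ range N₀, xx (twins (A ω)) m := lt_of_le_of_ne (hpos N₀) (Ne.symm hN₀)
      have h7 : 0 < M := h6.trans_le (hM N₀)
      obtain ⟨N, g3, g4, g5⟩ := ((d3.eventually_lt_const (show 0 < 1 / M by positivity)).and
        ((Pool.Agent.Q120.AD.hl.eventually_ge_atTop 1).and (eventually_ge_atTop N₀))).exists
      have h8 : 0 < ∑ m ∈ range N, xx (twins (A ω)) m := by
        refine h6.trans_le (sum_le_sum_of_subset_of_nonneg (range_mono g5) (fun m _ _ => ?_))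
        rcases xx_cases (twins (A ω)) m with h | h <;> rw [h]
        norm_num
      rw [div_lt_div_iff₀ h8 h7] at g3
      have h9 : (1 : ℝ) ≤ Real.log N ^ 2 := one_le_pow₀ g4
      have h10 := hM N
      nlinarith
  · intro a b ha hb
    have h3 : Tendsto (fun x : ℕ => (delta (A ω) a b x - 1 / 2) * Real.log x ^ 2 * (Real.log x ^ 2)⁻¹) atTop
        (𝓝 (-(sg a * sg b * (((Q : ℝ) / Nat.totient Q) ^ 2 / 4)) * 0)) :=
      (key a b ha hb).mul ((tendsto_pow_atTop two_ne_zero).comp Pool.Agent.Q120.AD.hl).inv_tendsto_atTop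
    rw [mul_zero] at h3
    have h4 := h3.add_const (1 / 2)
    rw [zero_add] at h4
    refine h4.congr' ?_
    filter_upwards [Pool.Agent.Q120.AD.hl.eventually_gt_atTop 0] with x hx
    have hx' : Real.log (x : ℝ) ^ 2 ≠ 0 := (pow_pos hx 2).ne'
    rw [mul_assoc, mul_inv_cancel₀ hx']
    ring
  · intro a ha
    have h3 := key a a ha ha
    have e1 : sg a * sg a = 1 := by
      unfold sg
      split_ifs <;> norm_num
    rw [e1, one_mul] at h3
    exact h3
  · intro a b hab
    have e1 : sg a * sg b = -1 := by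
      unfold sg
      rcases hab with ⟨h, h'⟩ | ⟨h, h'⟩ <;> rw [h, h'] <;> norm_num
    have ha : a = 1 ∨ a = 3 := by omega
    have hb : b = 1 ∨ b = 3 := by omega
    have h3 := key a b ha hb
    rw [e1] at h3
    have e2 : -(-1 * (((Q : ℝ) / Nat.totient Q) ^ 2 / 4)) = ((Q : ℝ) / Nat.totient Q) ^ 2 / 4 := by ring
    rw [e2] at h3
    exact h3

/-- **The residues modulo `4` of consecutive twins.** -/
theorem result : (∀ Q : ℕ, IsModel (prodMeasure (level Q)) (level Q) (trueSet (ι := ℕ))) ∧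
    ∀ (Ω : Type) (_ : MeasurableSpace Ω) (μ : Measure Ω) (_ : IsProbabilityMeasure μ) (A : Ω → Set ℕ) (Q : ℕ),
      1 ≤ Q → 6 ∣ Q → IsModel μ (level Q) A → ∀ᵐ ω ∂μ, Law (A ω) Q := by
  refine ⟨fun Q => isModel (level Q) (level_nonneg Q) (level_le_one Q), ?_⟩
  intro Ω _ μ _ A Q hQ1 hQ hA
  exact law hA hQ1 hQ

end Pool.Agent.Results.MP_74f661_nt.ResidueBias
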