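import Pool.Agent.Q117.LF.Main5

/-!
MP_74f661_nt (residues mod 4 of consecutive twin prime pairs): every string of residue classes modulo any `q` occurs for consecutive almost twins with the right
order of magnitude, with an actual prime and a product of at most two primes at any two places of the string.
-/

set_option autoImplicit false

namespace Pool.Agent.Results.MP_74f661_nt.StringsOfResidues

/-- all prime factors of `m` are `> z` (so `0` is not rough) -/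
def Rough (z : ℝ) (m : ℤ) : Prop := ∀ p : ℕ, p.Prime → (p : ℤ) ∣ m → z < p

/-- at most two prime factors (with multiplicity), all `> z` -/
def AtMostTwo (z : ℝ) (m : ℤ) : Prop := m.natAbs.primeFactorsList.length ≤ 2 ∧ Rough z m

/-- `m` is the first member of an almost twin pair -/
def Twin (z : ℝ) (m : ℤ) : Prop := Rough z m ∧ Rough z (m + 2)

/-- `m 0 < ... < m J` are consecutive almost twins, `m J ≤ m 0 + L`, and there are no others at distance `≤ L` from `m 0` -/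
def Run (z L : ℝ) {J : ℕ} (m : Fin (J + 1) → ℕ) : Prop :=
  StrictMono m ∧ (∀ j, Twin z (m j) ∧ (m j : ℝ) ≤ m 0 + L) ∧ ∀ k : ℤ, |((k - m 0 : ℤ) : ℝ)| ≤ L → Twin z k → ∃ j, k = m j

/-- the `n ∈ (X, 2X]` which begin a run `n = m 0, ..., m J` of consecutive almost twins `m j ≡ a j (mod q)` such that `m j₁ + h₁` is prime and `m j₂ + h₂` has at
most two prime factors, all `> X ^ (1/9)` -/
def Strings (q : ℕ) (z X L : ℝ) {J : ℕ} (a : Fin (J + 1) → ℕ) (j₁ j₂ : Fin (J + 1)) (h₁ h₂ : ℕ) : Set ℕ :=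
  {n : ℕ | X < n ∧ (n : ℝ) ≤ 2 * X ∧ ∃ m : Fin (J + 1) → ℕ, m 0 = n ∧ Run z L m ∧ (∀ j, m j ≡ a j [MOD q]) ∧ (m j₁ + h₁).Prime ∧
    AtMostTwo (X ^ (1 / 9 : ℝ)) ((m j₂ + h₂ : ℕ) : ℤ)}

theorem result : ∀ (J q : ℕ) (a : Fin (J + 1) → ℕ), 1 ≤ q → (∀ j, (a j).Coprime q ∧ (a j + 2).Coprime q) →
    ∀ (j₁ j₂ : Fin (J + 1)) (h₁ h₂ : ℕ), (h₁ = 0 ∨ h₁ = 2) → (h₂ = 0 ∨ h₂ = 2) → (j₁ ≠ j₂ ∨ h₁ ≠ h₂) →
    ∃ t : ℕ, 1 ≤ t ∧ ∃ c : ℝ, 0 < c ∧ ∃ ν : ℝ, 0 < ν ∧ ∃ X0 : ℝ, ∀ X : ℝ, X0 ≤ X →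
      c * (X / Real.log X ^ 2) ≤ ((Strings q (X ^ (1 / (t : ℝ))) X (ν * Real.log X ^ 2) a j₁ j₂ h₁ h₂).ncard : ℝ) := by
  intro J q a hq ha j₁ j₂ h₁ h₂ e₁ e₂ hne
  have m1 : h₁ ∈ ({0, 2} : Finset ℕ) := by rcases e₁ with rfl | rfl <;> simp
  have m2 : h₂ ∈ ({0, 2} : Finset ℕ) := by rcases e₂ with rfl | rfl <;> simp
  obtain ⟨t, ht, c, hc, ν, hν, X0, h⟩ := Pool.Agent.Q117.LF.stcC J 1 q 2 (fun _ => {0, 2}) hq (by norm_num)
    (fun γ => ⟨by decide, by decide⟩) (Function.injective_of_subsingleton _) (fun _ => 0) a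
    (fun j p hp => by
      rcases eq_or_ne p 3 with rfl | h3
      · exact ⟨2, by decide⟩
      · refine ⟨1, fun h hh => ?_⟩
        simp only [Finset.mem_insert, Finset.mem_singleton] at hh
        rcases hh with rfl | rfl
        · exact fun hd => hp.one_lt.ne' (Nat.dvd_one.1 hd)
        · intro hd
          exact h3 ((Nat.prime_dvd_prime_iff_eq hp Nat.prime_three).1 hd))
    (fun j h hh => by
      simp only [Finset.mem_insert, Finset.mem_singleton] at hh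
      rcases hh with rfl | rfl
      · simpa using (ha j).1
      · exact (ha j).2)
    j₁ j₂ h₁ h₂ m1 m2 hne
  refine ⟨t, ht, c, hc, ν, hν, max X0 0, fun X hX => (h X ((le_max_left _ _).trans hX)).trans ?_⟩
  have hfin : (Strings q (X ^ (1 / (t : ℝ))) X (ν * Real.log X ^ 2) a j₁ j₂ h₁ h₂).Finite := by
    apply Set.Finite.subset (Set.finite_Iic ⌊2 * X⌋₊)
    rintro n ⟨-, h2, -⟩
    exact Nat.le_floor h2
  rw [Nat.cast_le]
  apply Set.ncard_le_ncard _ hfin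
  rintro n ⟨g1, g2, m, g3, g4, g5, g6, g7, g8, g9, g10⟩
  refine ⟨g1, g2, m, g3, ⟨g4, fun j => ⟨⟨?_, ?_⟩, ?_⟩, fun k hk hT => ?_⟩, g6, g8, g9⟩
  · have h0 : Rough _ _ := g7 j 0 (by simp)
    simpa using h0
  · have h0 : Rough _ _ := g7 j 2 (by simp)
    simpa using h0
  · rw [g3]
    exact g5 j
  · rw [g3] at hk
    obtain ⟨j, hj, -⟩ := g10 0 k hk (fun h hh => by
      simp only [Finset.mem_insert, Finset.mem_singleton] at hh
      have h0 : ∀ x : ℤ, Rough (X ^ (1 / (t : ℝ))) x → Pool.Agent.Q117.LF.Ro (X ^ (1 / (t : ℝ))) x := fun x hx => hx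
      rcases hh with rfl | rfl
      · apply h0
        simpa using hT.1
      · apply h0
        simpa using hT.2)
    exact ⟨j, hj⟩

end Pool.Agent.Results.MP_74f661_nt.StringsOfResidues
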